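import Pool.Agent.Helper22.GC.VdC

/-!
# A minorant for the indicator function of an interval modulo one
-/

set_option autoImplicit false

open Pool.Agent.Helper22.GC (ee)
open scoped Real

namespace EG

namespace M

/-- the weights -/
noncomputable def a (H j : ℕ) : ℝ := Real.sin (π * j / H)

/-- the square of the absolute value of a trigonometric polynomial -/
noncomputable def P (H : ℕ) (x : ℝ) : ℝ :=
  (∑ j ∈ Finset.range H, a H j * Real.cos (2 * π * j * x)) ^ 2 +
    (∑ j ∈ Finset.range H, a H j * Real.sin (2 * π * j * x)) ^ 2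

theorem P_eq (H : ℕ) (x : ℝ) : P H x = ∑ j ∈ Finset.range H, ∑ l ∈ Finset.range H,
    a H j * a H l * Real.cos (2 * π * (((j : ℤ) - (l : ℤ) : ℤ) : ℝ) * x) := by
  unfold P
  rw [sq, sq, Finset.sum_mul_sum, Finset.sum_mul_sum, ← Finset.sum_add_distrib]
  refine Finset.sum_congr rfl fun j _ => ?_
  rw [← Finset.sum_add_distrib]
  refine Finset.sum_congr rfl fun l _ => ?_
  have : 2 * π * (((j : ℤ) - (l : ℤ) : ℤ) : ℝ) * x = 2 * π * j * x - 2 * π * l * x := by
    push_cast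
    ring
  rw [this, Real.cos_sub]
  ring

theorem P_nonneg (H : ℕ) (x : ℝ) : 0 ≤ P H x := by
  unfold P
  positivity

theorem abs_a_le (H j : ℕ) : |a H j| ≤ 1 := Real.abs_sin_le_one _

theorem P_le (H : ℕ) (x : ℝ) : P H x ≤ (H : ℝ) ^ 2 := by
  rw [P_eq]
  calc ∑ j ∈ Finset.range H, ∑ l ∈ Finset.range H,
        a H j * a H l * Real.cos (2 * π * (((j : ℤ) - (l : ℤ) : ℤ) : ℝ) * x)
      ≤ ∑ j ∈ Finset.range H, ∑ l ∈ Finset.range H, (1 : ℝ) := by
        refine Finset.sum_le_sum fun j _ => Finset.sum_le_sum fun l _ => ?_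
        refine (le_abs_self _).trans ?_
        rw [abs_mul, abs_mul]
        have h1 := abs_a_le H j
        have h2 := abs_a_le H l
        have h3 := Real.abs_cos_le_one (2 * π * (((j : ℤ) - (l : ℤ) : ℤ) : ℝ) * x)
        have h4 : |a H j| * |a H l| ≤ 1 := mul_le_one₀ h1 (abs_nonneg _) h2
        exact mul_le_one₀ h4 (abs_nonneg _) h3
    _ = (H : ℝ) ^ 2 := by
        simp [sq]

/-- the minorant -/
noncomputable def G (H : ℕ) (β x : ℝ) : ℝ := (Real.cos (2 * π * x) - Real.cos (2 * π * β)) * P H x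

theorem G_eq (H : ℕ) (β x : ℝ) : G H β x = ∑ j ∈ Finset.range H, ∑ l ∈ Finset.range H,
    a H j * a H l * ((Real.cos (2 * π * (((j : ℤ) - (l : ℤ) + 1 : ℤ) : ℝ) * x) +
      Real.cos (2 * π * (((j : ℤ) - (l : ℤ) - 1 : ℤ) : ℝ) * x)) / 2 -
        Real.cos (2 * π * β) * Real.cos (2 * π * (((j : ℤ) - (l : ℤ) : ℤ) : ℝ) * x)) := by
  unfold G
  rw [P_eq, Finset.mul_sum]
  refine Finset.sum_congr rfl fun j _ => ?_
  rw [Finset.mul_sum]
  refine Finset.sum_congr rfl fun l _ => ?_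
  have h1 : 2 * π * (((j : ℤ) - (l : ℤ) + 1 : ℤ) : ℝ) * x =
      2 * π * (((j : ℤ) - (l : ℤ) : ℤ) : ℝ) * x + 2 * π * x := by
    push_cast
    ring
  have h2 : 2 * π * (((j : ℤ) - (l : ℤ) - 1 : ℤ) : ℝ) * x =
      2 * π * (((j : ℤ) - (l : ℤ) : ℤ) : ℝ) * x - 2 * π * x := by
    push_cast
    ring
  rw [h1, h2, Real.cos_add, Real.cos_sub]
  ring

/-- Kronecker symbol -/
noncomputable def d (h : ℤ) : ℝ := if h = 0 then 1 else 0

theorem sum_main {H : ℕ} (hH : 0 < H) (γ : ℝ) : ∑ j ∈ Finset.range H, ∑ l ∈ Finset.range H,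
    a H j * a H l * ((d ((j : ℤ) - (l : ℤ) + 1) + d ((j : ℤ) - (l : ℤ) - 1)) / 2 -
      γ * d ((j : ℤ) - (l : ℤ))) = (Real.cos (π / H) - γ) * ∑ j ∈ Finset.range H, a H j ^ 2 := by
  have hH' : (H : ℝ) ≠ 0 := by exact_mod_cast hH.ne'
  rw [Finset.mul_sum]
  refine Finset.sum_congr rfl fun j hj => ?_
  rw [Finset.mem_range] at hj
  have e1 : ∑ l ∈ Finset.range H, a H l * d ((j : ℤ) - (l : ℤ) + 1) = a H (j + 1) := by
    by_cases h : j + 1 < H
    · rw [Finset.sum_eq_single (j + 1)]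
      · simp [d]
      · intro b _ hb
        have : (j : ℤ) - (b : ℤ) + 1 ≠ 0 := by omega
        simp [d, this]
      · intro h1
        exact absurd (Finset.mem_range.2 h) h1
    · have h1 : j + 1 = H := by omega
      have h2 : a H (j + 1) = 0 := by
        rw [h1]
        unfold a
        rw [mul_div_assoc, div_self hH', mul_one, Real.sin_pi]
      rw [h2]
      refine Finset.sum_eq_zero fun l hl => ?_
      rw [Finset.mem_range] at hl
      have : (j : ℤ) - (l : ℤ) + 1 ≠ 0 := by omega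
      simp [d, this]
  have e3 : ∑ l ∈ Finset.range H, a H l * d ((j : ℤ) - (l : ℤ)) = a H j := by
    rw [Finset.sum_eq_single j]
    · simp [d]
    · intro b _ hb
      have : (j : ℤ) - (b : ℤ) ≠ 0 := by omega
      simp [d, this]
    · intro h1
      exact absurd (Finset.mem_range.2 hj) h1
  have e0 : ∑ l ∈ Finset.range H,
    a H j * a H l * ((d ((j : ℤ) - (l : ℤ) + 1) + d ((j : ℤ) - (l : ℤ) - 1)) / 2 -
      γ * d ((j : ℤ) - (l : ℤ))) = a H j * ((∑ l ∈ Finset.range H, a H l * d ((j : ℤ) - (l : ℤ) + 1)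
        + ∑ l ∈ Finset.range H, a H l * d ((j : ℤ) - (l : ℤ) - 1)) / 2 -
        γ * ∑ l ∈ Finset.range H, a H l * d ((j : ℤ) - (l : ℤ))) := by
    rw [mul_sub, mul_div_assoc', mul_add, Finset.mul_sum, Finset.mul_sum, ← mul_assoc,
      Finset.mul_sum, ← Finset.sum_add_distrib, Finset.sum_div, ← Finset.sum_sub_distrib]
    refine Finset.sum_congr rfl fun l _ => ?_
    ring
  rw [e0, e1, e3]
  rcases Nat.eq_zero_or_pos j with h0 | h0
  · subst h0
    have : a H 0 = 0 := by simp [a]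
    rw [this]
    ring
  · have e2 : ∑ l ∈ Finset.range H, a H l * d ((j : ℤ) - (l : ℤ) - 1) = a H (j - 1) := by
      rw [Finset.sum_eq_single (j - 1)]
      · have : (j : ℤ) - ((j - 1 : ℕ) : ℤ) - 1 = 0 := by omega
        rw [this]
        simp [d]
      · intro b _ hb
        have : (j : ℤ) - (b : ℤ) - 1 ≠ 0 := by omega
        simp [d, this]
      · intro h1
        exact absurd (Finset.mem_range.2 (by omega)) h1
    rw [e2]
    have e4 : a H (j + 1) + a H (j - 1) = 2 * Real.cos (π / H) * a H j := by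
      unfold a
      have h1 : π * ((j + 1 : ℕ) : ℝ) / H = π * j / H + π / H := by
        push_cast
        ring
      have h2 : π * ((j - 1 : ℕ) : ℝ) / H = π * j / H - π / H := by
        rw [Nat.cast_sub h0]
        push_cast
        ring
      rw [h1, h2, Real.sin_add, Real.sin_sub]
      ring
    rw [e4]
    ring

theorem sum_sq_ge (K : ℕ) (hK : 0 < K) :
    (K : ℝ) / 3 ≤ ∑ j ∈ Finset.range (2 * K), a (2 * K) j ^ 2 := by
  have hK' : (0 : ℝ) < K := by exact_mod_cast hK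
  have h1 : ∑ j ∈ Finset.range (K + 1), ((j : ℝ) / K) ^ 2 ≤
      ∑ j ∈ Finset.range (2 * K), a (2 * K) j ^ 2 := by
    refine (Finset.sum_le_sum fun j hj => ?_).trans
      (Finset.sum_le_sum_of_subset_of_nonneg (Finset.range_subset_range.2 (by omega))
        fun j _ _ => sq_nonneg _)
    rw [Finset.mem_range] at hj
    have hj' : (j : ℝ) ≤ K := by exact_mod_cast (by omega : j ≤ K)
    have h2 : (j : ℝ) / K ≤ a (2 * K) j := by
      unfold a
      have h3 : π * j / ((2 * K : ℕ) : ℝ) = π / 2 * (j / K) := by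
        push_cast
        field_simp
      rw [h3]
      have h4 : (j : ℝ) / K ≤ 1 := (div_le_one hK').2 hj'
      have h5 : 0 ≤ (j : ℝ) / K := by positivity
      have := Real.mul_le_sin (x := π / 2 * (j / K)) (by positivity)
        (mul_le_of_le_one_right (by positivity) h4)
      calc (j : ℝ) / K = 2 / π * (π / 2 * (j / K)) := by
            field_simp
        _ ≤ _ := this
    exact pow_le_pow_left₀ (by positivity) h2 2
  refine le_trans ?_ h1
  have h6 : ∀ n : ℕ, ∑ j ∈ Finset.range (n + 1), (j : ℝ) ^ 2 = n * (n + 1) * (2 * n + 1) / 6 := by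
    intro n
    induction n with
    | zero => simp
    | succ n ih =>
      rw [Finset.sum_range_succ, ih]
      push_cast
      ring
  have h7 : ∑ j ∈ Finset.range (K + 1), ((j : ℝ) / K) ^ 2 =
      K * (K + 1) * (2 * K + 1) / 6 / K ^ 2 := by
    rw [← h6, Finset.sum_div]
    refine Finset.sum_congr rfl fun j _ => ?_
    rw [div_pow]
  rw [h7, div_le_div_iff₀ (by norm_num) (by positivity)]
  nlinarith [hK', mul_pos hK' hK']

/-- the cosine sums -/
noncomputable def c {ι : Type*} (s : Finset ι) (θ : ι → ℝ) (h : ℤ) : ℝ :=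
  ∑ i ∈ s, Real.cos (2 * π * (h : ℝ) * θ i)

theorem c_neg {ι : Type*} (s : Finset ι) (θ : ι → ℝ) (h : ℤ) : c s θ (-h) = c s θ h := by
  unfold c
  refine Finset.sum_congr rfl fun i _ => ?_
  rw [← Real.cos_neg (2 * π * (h : ℝ) * θ i)]
  congr 1
  push_cast
  ring

theorem ee_re (x : ℝ) : (ee x).re = Real.cos (2 * π * x) := by
  have : (2 * π * Complex.I * x : ℂ) = ((2 * π * x : ℝ) : ℂ) * Complex.I := by
    push_cast
    ring
  rw [ee, this, Complex.exp_ofReal_mul_I_re]

theorem abs_c_le {ι : Type*} (s : Finset ι) (θ : ι → ℝ) (h : ℕ) :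
    |c s θ h| ≤ ‖∑ i ∈ s, ee (h * θ i)‖ := by
  have : c s θ h = (∑ i ∈ s, ee (h * θ i)).re := by
    rw [Complex.re_sum]
    unfold c
    refine Finset.sum_congr rfl fun i _ => ?_
    rw [ee_re]
    congr 1
    push_cast
    ring
  rw [this]
  exact Complex.abs_re_le_norm _

theorem sum_G {ι : Type*} (s : Finset ι) (θ : ι → ℝ) (H : ℕ) (β : ℝ) :
    ∑ i ∈ s, G H β (θ i) = ∑ j ∈ Finset.range H, ∑ l ∈ Finset.range H,
    a H j * a H l * ((c s θ ((j : ℤ) - (l : ℤ) + 1) + c s θ ((j : ℤ) - (l : ℤ) - 1)) / 2 -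
        Real.cos (2 * π * β) * c s θ ((j : ℤ) - (l : ℤ))) := by
  rw [Finset.sum_congr rfl (fun i _ => G_eq H β (θ i)), Finset.sum_comm]
  refine Finset.sum_congr rfl fun j _ => ?_
  rw [Finset.sum_comm]
  refine Finset.sum_congr rfl fun l _ => ?_
  unfold c
  rw [← Finset.mul_sum, Finset.sum_sub_distrib, ← Finset.sum_div, Finset.sum_add_distrib,
    ← Finset.mul_sum]

theorem sum_G_ge {ι : Type*} (s : Finset ι) (θ : ι → ℝ) (H : ℕ) (hH : 0 < H) (β B : ℝ)
    (hB0 : 0 ≤ B) (hB : ∀ h : ℤ, h ≠ 0 → |h| ≤ H → |c s θ h| ≤ B) :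
    s.card * ((Real.cos (π / H) - Real.cos (2 * π * β)) * ∑ j ∈ Finset.range H, a H j ^ 2) -
      2 * B * (H : ℝ) ^ 2 ≤ ∑ i ∈ s, G H β (θ i) := by
  have hc : ∀ h : ℤ, |h| ≤ H → |c s θ h - s.card * d h| ≤ B := by
    intro h hh
    by_cases h0 : h = 0
    · subst h0
      have : c s θ 0 = s.card := by simp [c]
      rw [this]
      simp [d, hB0]
    · simp only [d, h0, if_false, mul_zero, sub_zero]
      exact hB h h0 hh
  rw [sum_G, ← sum_main hH, Finset.mul_sum, show 2 * B * (H : ℝ) ^ 2 =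
    ∑ j ∈ Finset.range H, ∑ l ∈ Finset.range H, 2 * B by simp; ring, ← Finset.sum_sub_distrib]
  refine Finset.sum_le_sum fun j hj => ?_
  rw [Finset.mul_sum, ← Finset.sum_sub_distrib]
  refine Finset.sum_le_sum fun l hl => ?_
  rw [Finset.mem_range] at hj hl
  have b1 := hc ((j : ℤ) - (l : ℤ) + 1) (by rw [abs_le]; omega)
  have b2 := hc ((j : ℤ) - (l : ℤ) - 1) (by rw [abs_le]; omega)
  have b3 := hc ((j : ℤ) - (l : ℤ)) (by rw [abs_le]; omega)
  set x1 := c s θ ((j : ℤ) - (l : ℤ) + 1) with hx1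
  set x2 := c s θ ((j : ℤ) - (l : ℤ) - 1) with hx2
  set x3 := c s θ ((j : ℤ) - (l : ℤ)) with hx3
  set y1 := d ((j : ℤ) - (l : ℤ) + 1) with hy1
  set y2 := d ((j : ℤ) - (l : ℤ) - 1) with hy2
  set y3 := d ((j : ℤ) - (l : ℤ)) with hy3
  have h1 : |a H j * a H l| ≤ 1 := by
    rw [abs_mul]
    exact mul_le_one₀ (abs_a_le H j) (abs_nonneg _) (abs_a_le H l)
  have h2 : |((x1 - s.card * y1) + (x2 - s.card * y2)) / 2 -
      Real.cos (2 * π * β) * (x3 - s.card * y3)| ≤ 2 * B := by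
    have h3 : |Real.cos (2 * π * β) * (x3 - s.card * y3)| ≤ B := by
      rw [abs_mul]
      calc |Real.cos (2 * π * β)| * |x3 - s.card * y3| ≤ 1 * B :=
            mul_le_mul (Real.abs_cos_le_one _) b3 (abs_nonneg _) zero_le_one
        _ = B := one_mul B
    rw [abs_le] at b1 b2 h3 ⊢
    constructor <;> linarith [b1.1, b1.2, b2.1, b2.2, h3.1, h3.2]
  have h4 : |a H j * a H l * (((x1 - s.card * y1) + (x2 - s.card * y2)) / 2 -
      Real.cos (2 * π * β) * (x3 - s.card * y3))| ≤ 2 * B := by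
    rw [abs_mul]
    calc _ ≤ 1 * (2 * B) := mul_le_mul h1 h2 (abs_nonneg _) zero_le_one
      _ = 2 * B := one_mul _
  have h5 := (abs_le.1 h4).1
  nlinarith [h5]

end M

open M in
theorem minorant {ι : Type*} (s : Finset ι) (θ : ι → ℝ) (β B : ℝ) (hβ : 0 < β) (hβ' : β ≤ 1 / 4)
    (hB : ∀ h : ℕ, 1 ≤ h → (h : ℝ) ≤ 2 / β + 2 → ‖∑ i ∈ s, ee (h * θ i)‖ ≤ B) :
    (β * s.card - 8 * B / β ^ 2) / 80 ≤
      ((s.filter (fun i => |θ i - round (θ i)| ≤ β)).card : ℝ) := by
  have hinv : 4 ≤ 1 / β := by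
    rw [le_div_iff₀ hβ]
    linarith
  set K : ℕ := ⌈1 / (2 * β)⌉₊ with hKdef
  have hK1 : 1 / (2 * β) ≤ K := Nat.le_ceil _
  have hK2 : (K : ℝ) < 1 / (2 * β) + 1 := Nat.ceil_lt_add_one (by positivity)
  have e1 : 1 / (2 * β) = (1 / β) / 2 := by
    field_simp
  have e2 : 2 / β = 2 * (1 / β) := by ring
  rw [e1] at hK1 hK2
  have hKpos : 0 < K := by
    have : (0 : ℝ) < K := by linarith
    exact_mod_cast this
  have hHpos : 0 < 2 * K := by omega
  have hHr : ((2 * K : ℕ) : ℝ) = 2 * K := by push_cast; ring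
  have hH1 : 1 / β ≤ ((2 * K : ℕ) : ℝ) := by rw [hHr]; linarith
  have hH2 : ((2 * K : ℕ) : ℝ) ≤ 3 / 2 * (1 / β) := by rw [hHr]; linarith
  have hB0 : 0 ≤ B := (norm_nonneg _).trans (hB 1 le_rfl (by push_cast; rw [e2]; linarith))
  have hcB : ∀ h : ℤ, h ≠ 0 → |h| ≤ ((2 * K : ℕ) : ℤ) → |c s θ h| ≤ B := by
    intro h h0 hh
    have key : ∀ n : ℕ, 1 ≤ n → n ≤ 2 * K → |c s θ n| ≤ B := by
      intro n hn hn'
      refine (abs_c_le s θ n).trans (hB n hn ?_)
      have : (n : ℝ) ≤ ((2 * K : ℕ) : ℝ) := by exact_mod_cast hn'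
      rw [e2]
      linarith
    rw [abs_le] at hh
    rcases Int.natAbs_eq h with h1 | h1
    · rw [h1]
      exact key _ (by omega) (by omega)
    · rw [h1, c_neg]
      exact key _ (by omega) (by omega)
  have hlow := sum_G_ge s θ (2 * K) hHpos β B hB0 hcB
  -- the main term
  have hcos : 6 * β ^ 2 ≤ Real.cos (π / ((2 * K : ℕ) : ℝ)) - Real.cos (2 * π * β) := by
    have hπ := Real.pi_pos
    have h1 : π / ((2 * K : ℕ) : ℝ) ≤ π * β := by
      rw [div_le_iff₀ (by positivity)]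
      have h2 : 1 ≤ β * ((2 * K : ℕ) : ℝ) := by
        have := (div_le_iff₀ hβ).1 hH1
        linarith
      calc π = π * 1 := by ring
        _ ≤ π * (β * ((2 * K : ℕ) : ℝ)) := mul_le_mul_of_nonneg_left h2 hπ.le
        _ = π * β * ((2 * K : ℕ) : ℝ) := by ring
    have h3 : Real.cos (π * β) ≤ Real.cos (π / ((2 * K : ℕ) : ℝ)) :=
      Real.cos_le_cos_of_nonneg_of_le_pi (by positivity) (by nlinarith) h1
    have h4 : Real.cos (π * β) - Real.cos (2 * π * β) =
        2 * Real.sin (3 * π * β / 2) * Real.sin (π * β / 2) := by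
      rw [Real.cos_sub_cos]
      have h5 : (π * β + 2 * π * β) / 2 = 3 * π * β / 2 := by ring
      have h6 : (π * β - 2 * π * β) / 2 = -(π * β / 2) := by ring
      rw [h5, h6, Real.sin_neg]
      ring
    have h7 : 3 * β ≤ Real.sin (3 * π * β / 2) := by
      have := Real.mul_le_sin (x := 3 * π * β / 2) (by positivity) (by nlinarith)
      calc 3 * β = 2 / π * (3 * π * β / 2) := by field_simp
        _ ≤ _ := this
    have h8 : β ≤ Real.sin (π * β / 2) := by
      have := Real.mul_le_sin (x := π * β / 2) (by positivity) (by nlinarith)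
      calc β = 2 / π * (π * β / 2) := by field_simp
        _ ≤ _ := this
    have h9 : 3 * β * β ≤ Real.sin (3 * π * β / 2) * Real.sin (π * β / 2) :=
      mul_le_mul h7 h8 hβ.le ((by positivity : (0 : ℝ) ≤ 3 * β).trans h7)
    nlinarith [h3, h4, h9]
  have hQ : β ≤ (Real.cos (π / ((2 * K : ℕ) : ℝ)) - Real.cos (2 * π * β)) *
      ∑ j ∈ Finset.range (2 * K), a (2 * K) j ^ 2 := by
    have h1 := sum_sq_ge K hKpos
    have h2 : 1 / β / 6 ≤ ∑ j ∈ Finset.range (2 * K), a (2 * K) j ^ 2 := by linarith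
    calc β = 6 * β ^ 2 * (1 / β / 6) := by
          field_simp
      _ ≤ _ := mul_le_mul hcos h2 (by positivity) ((by positivity : (0 : ℝ) ≤ 6 * β ^ 2).trans hcos)
  have hlow2 : β * s.card - 8 * B / β ^ 2 ≤ ∑ i ∈ s, G (2 * K) β (θ i) := by
    refine le_trans ?_ hlow
    have h1 : 2 * B * (((2 * K : ℕ) : ℝ)) ^ 2 ≤ 8 * B / β ^ 2 := by
      have h2 : (((2 * K : ℕ) : ℝ)) ^ 2 ≤ (3 / 2 * (1 / β)) ^ 2 :=
        pow_le_pow_left₀ (by positivity) hH2 2
      calc 2 * B * (((2 * K : ℕ) : ℝ)) ^ 2 ≤ 2 * B * (3 / 2 * (1 / β)) ^ 2 :=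
            mul_le_mul_of_nonneg_left h2 (by positivity)
        _ = 9 / 2 * (B / β ^ 2) := by ring
        _ ≤ 8 * (B / β ^ 2) := mul_le_mul_of_nonneg_right (by norm_num) (by positivity)
        _ = 8 * B / β ^ 2 := by ring
    have h3 : β * s.card ≤ s.card * ((Real.cos (π / ((2 * K : ℕ) : ℝ)) - Real.cos (2 * π * β)) *
        ∑ j ∈ Finset.range (2 * K), a (2 * K) j ^ 2) := by
      rw [mul_comm]
      exact mul_le_mul_of_nonneg_left hQ (Nat.cast_nonneg _)
    linarith
  -- the upper bound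
  have hup : ∑ i ∈ s, G (2 * K) β (θ i) ≤
      80 * ((s.filter (fun i => |θ i - round (θ i)| ≤ β)).card : ℝ) := by
    have h1 : ∀ i ∈ s, G (2 * K) β (θ i) ≤ if |θ i - round (θ i)| ≤ β then (80 : ℝ) else 0 := by
      intro i _
      have hπ := Real.pi_pos
      have hper : Real.cos (2 * π * θ i) = Real.cos (2 * π * |θ i - round (θ i)|) := by
        have h2 : 2 * π * |θ i - round (θ i)| = |2 * π * (θ i - round (θ i))| := by
          rw [abs_mul, abs_of_pos (by positivity : 0 < 2 * π)]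
        rw [h2, Real.cos_abs, mul_sub, mul_comm (2 * π) ((round (θ i) : ℤ) : ℝ)]
        exact (Real.cos_sub_int_mul_two_pi _ _).symm
      split_ifs with h
      · have h2 : Real.cos (2 * π * θ i) - Real.cos (2 * π * β) ≤ 2 * π ^ 2 * β ^ 2 := by
          have h3 := Real.one_sub_sq_div_two_le_cos (x := 2 * π * β)
          have h4 := Real.cos_le_one (2 * π * θ i)
          nlinarith
        have h5 := P_le (2 * K) (θ i)
        have h6 := P_nonneg (2 * K) (θ i)
        have h7 : (((2 * K : ℕ) : ℝ)) ^ 2 ≤ (3 / 2 * (1 / β)) ^ 2 :=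
          pow_le_pow_left₀ (by positivity) hH2 2
        unfold G
        calc (Real.cos (2 * π * θ i) - Real.cos (2 * π * β)) * P (2 * K) (θ i)
            ≤ (2 * π ^ 2 * β ^ 2) * P (2 * K) (θ i) := mul_le_mul_of_nonneg_right h2 h6
          _ ≤ (2 * π ^ 2 * β ^ 2) * (3 / 2 * (1 / β)) ^ 2 :=
            mul_le_mul_of_nonneg_left (h5.trans h7) (by positivity)
          _ = 9 / 2 * π ^ 2 := by
            field_simp
            ring
          _ ≤ 80 := by
            have := Real.pi_lt_d2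
            nlinarith
      · push Not at h
        have h2 : Real.cos (2 * π * θ i) ≤ Real.cos (2 * π * β) := by
          rw [hper]
          have h3 := abs_sub_round (θ i)
          exact Real.cos_le_cos_of_nonneg_of_le_pi (by positivity) (by nlinarith) (by nlinarith)
        exact mul_nonpos_of_nonpos_of_nonneg (by linarith) (P_nonneg _ _)
    refine (Finset.sum_le_sum h1).trans ?_
    rw [← Finset.sum_filter, Finset.sum_const, nsmul_eq_mul, mul_comm]
  rw [div_le_iff₀ (by norm_num)]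
  linarith

end EG
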